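import Mathlib
import Pool.Agent.X215.SR.C
import Pool.Agent.X215.SR.D

/-!
# Partitions of `(0, ∞)` into Borel sets closed under addition and multiplication

* A nonmeager piece is the only piece. Hence if fewer than `𝔠` meager sets never cover the line, then
  the number of pieces is `1` or `𝔠`.
* Let `T` be a transcendence basis of `ℝ` over `ℚ` which is the union of `ℵ₁` Borel sets, indexed by
  `ω₁` and made disjoint. Order `T` lexicographically (index, then value). For `t ∈ T` let `D t` be the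
  derivation of `ℝ` with `D t t = 1` and `D t s = 0` for the other `s ∈ T`. For a positive
  transcendental `y` let `t` be the last element of `T` with `D t y ≠ 0`; the piece of `y` is given
  by the index of `t` and the sign of `D t y`. The positive algebraic numbers are one more piece.
  The pieces are Borel by the Lusin-Souslin theorem on injective images. This gives exactly `ℵ₁`
  pieces; in a model with `ℵ₁ < 𝔠` the statement of the question fails.
-/

set_option autoImplicit false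

namespace Pool.Agent.Results.MP_afbdfd_lc.SemiringPieces

open Set Cardinal

/-- `ℬ` is a partition of `(0, ∞)` into nonempty Borel sets closed under addition and
multiplication. -/
def SemiringPartition (ℬ : Set (Set ℝ)) : Prop :=
  (∀ B ∈ ℬ, B.Nonempty ∧ MeasurableSet B ∧ ∀ a ∈ B, ∀ b ∈ B, a + b ∈ B ∧ a * b ∈ B) ∧
    ℬ.PairwiseDisjoint id ∧ ⋃₀ ℬ = Set.Ioi 0

/-- The statement of the question: the number of pieces is `1` or `𝔠`. -/
def OneOrContinuum : Prop :=
  ∀ ℬ : Set (Set ℝ), SemiringPartition ℬ → #ℬ = 1 ∨ #ℬ = 𝔠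

/-- Fewer than `𝔠` meager sets do not cover the line, i.e. `cov(M) = 𝔠` (true under Martin's Axiom
and under the continuum hypothesis). -/
def CovMeagreContinuum : Prop :=
  ∀ 𝒜 : Set (Set ℝ), #𝒜 < 𝔠 → (∀ A ∈ 𝒜, IsMeagre A) → ⋃₀ 𝒜 ≠ Set.univ

/-- Some transcendence basis of `ℝ` over `ℚ` is the union of at most `ℵ₁` Borel sets (true under
`CPA_prism^game`, hence in the iterated perfect set model, where `𝔠 = ℵ₂`). -/
def BorelTranscendenceBasis : Prop :=
  ∃ 𝒯 : Set (Set ℝ), #𝒯 ≤ ℵ₁ ∧ (∀ P ∈ 𝒯, MeasurableSet P) ∧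
    IsTranscendenceBasis ℚ (Subtype.val : (⋃₀ 𝒯 : Set ℝ) → ℝ)

theorem one_lt_imp {ℬ : Set (Set ℝ)} (h : SemiringPartition ℬ) (h1 : 1 < #ℬ) : ℵ₁ ≤ #ℬ := by
  by_contra hcon
  rw [not_le, ← Cardinal.succ_aleph0] at hcon
  have hc : ℬ.Countable := Cardinal.le_aleph0_iff_set_countable.1 (Order.lt_succ_iff.1 hcon)
  have hall : ∀ B ∈ ℬ, IsMeagre B := by
    intro B hB
    by_contra hn
    rw [Pool.Agent.X215.SR.unique_piece h.1 h.2.1 h.2.2 hB hn] at h1
    simp at h1
  have h2 : IsMeagre (Set.Ioi (0 : ℝ)) := by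
    rw [← h.2.2, sUnion_eq_biUnion]
    exact isMeagre_biUnion hc hall
  have h3 : Dense (Set.Ioi (0 : ℝ))ᶜ := dense_of_mem_residual h2
  obtain ⟨y, hy, hy'⟩ := h3.inter_open_nonempty (Set.Ioi (0 : ℝ)) isOpen_Ioi
    ⟨1, (one_pos : (0 : ℝ) < 1)⟩
  exact hy' hy

theorem result :
    (∀ ℬ : Set (Set ℝ), SemiringPartition ℬ → ∀ B ∈ ℬ, ¬ IsMeagre B → ℬ = {B}) ∧
    (CovMeagreContinuum → OneOrContinuum) ∧
    (BorelTranscendenceBasis → ∃ ℬ : Set (Set ℝ), SemiringPartition ℬ ∧ #ℬ = ℵ₁) ∧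
    (BorelTranscendenceBasis → (ℵ₁ : Cardinal.{0}) < 𝔠 → ¬ OneOrContinuum) := by
  have h3 : BorelTranscendenceBasis → ∃ ℬ : Set (Set ℝ), SemiringPartition ℬ ∧ #ℬ = ℵ₁ := by
    intro h
    obtain ⟨ℬ, h1, h2, h3⟩ := Pool.Agent.X215.SR.main h
    exact ⟨ℬ, h1, le_antisymm h3 (one_lt_imp h1 h2)⟩
  refine ⟨fun ℬ h B hB hn => Pool.Agent.X215.SR.unique_piece h.1 h.2.1 h.2.2 hB hn,
    fun hcov ℬ h => Pool.Agent.X215.SR.pos_part hcov h.1 h.2.1 h.2.2, h3, ?_⟩
  intro h hlt hQ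
  obtain ⟨ℬ, h1, h2⟩ := h3 h
  rcases hQ ℬ h1 with h4 | h4
  · rw [h2] at h4
    have : (1 : Cardinal) < ℵ₁ := one_lt_aleph0.trans_le (Cardinal.aleph0_le_aleph 1)
    exact this.ne' h4
  · rw [h2] at h4
    exact hlt.ne h4

end Pool.Agent.Results.MP_afbdfd_lc.SemiringPieces
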